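import Pool.Agent.Q31.GLV.Stm

/-!
Lemma CHN of project GLV of helper31: two large subspaces are joined by a chain of length two of
near subspaces.
-/

set_option autoImplicit false

namespace Pool.Agent.Q259.GLV

open Pool.Agent.Q31.GLV Module Cardinal Submodule

section
variable {F V : Type} [Field F] [AddCommGroup V] [Module F V]

theorem split (C : Submodule F V) (h : ℵ₀ ≤ Module.rank F C) :
    ∃ C₁ C₂ : Submodule F V, C₁ ≤ C ∧ C₂ ≤ C ∧ Disjoint C₁ C₂ ∧
      Module.rank F C₁ = Module.rank F C ∧ Module.rank F C₂ = Module.rank F C := by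
  classical
  let b := Basis.ofVectorSpace F C
  have hJ : #(Basis.ofVectorSpaceIndex F C) = Module.rank F C := b.mk_eq_rank''
  have hJJ : #((Basis.ofVectorSpaceIndex F C) ⊕ (Basis.ofVectorSpaceIndex F C)) =
      #(Basis.ofVectorSpaceIndex F C) := by
    rw [mk_sum]
    simp only [lift_id]
    exact add_eq_self (hJ ▸ h)
  obtain ⟨e⟩ := Cardinal.eq.1 hJJ
  let v : (Basis.ofVectorSpaceIndex F C) ⊕ (Basis.ofVectorSpaceIndex F C) → V :=
    fun s => (b (e s) : V)
  have hv : LinearIndependent F v :=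
    (b.linearIndependent.map' C.subtype (ker_subtype C)).comp e e.injective
  obtain ⟨h1, h2, h3⟩ := linearIndependent_sum.1 hv
  refine ⟨span F (Set.range (v ∘ Sum.inl)), span F (Set.range (v ∘ Sum.inr)), ?_, ?_, h3, ?_, ?_⟩
  · rw [span_le]
    rintro _ ⟨j, rfl⟩
    exact (b (e (Sum.inl j))).2
  · rw [span_le]
    rintro _ ⟨j, rfl⟩
    exact (b (e (Sum.inr j))).2
  · rw [rank_span h1, mk_range_eq _ h1.injective, hJ]
  · rw [rank_span h2, mk_range_eq _ h2.injective, hJ]

theorem emb (C W : Submodule F V) (h : Disjoint C W) :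
    Module.rank F C ≤ Module.rank F (V ⧸ W) := by
  have : Function.Injective (W.mkQ.domRestrict C) := by
    rw [injective_iff_map_eq_zero]
    intro c hc
    have : (c : V) ∈ W := (Quotient.mk_eq_zero W).1 hc
    exact Subtype.ext (disjoint_def.1 h c c.2 this)
  exact LinearMap.rank_le_of_injective _ this

theorem emb' (C A W : Submodule F V) (hC : C ≤ W) (h : Disjoint C A) :
    Module.rank F C ≤ Module.rank F (W ⧸ A.submoduleOf W) := by
  have : Function.Injective ((A.submoduleOf W).mkQ ∘ₗ Submodule.inclusion hC) := by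
    rw [injective_iff_map_eq_zero]
    intro c hc
    have h2 : Submodule.inclusion hC c ∈ A.submoduleOf W := (Quotient.mk_eq_zero _).1 hc
    have h3 : (c : V) ∈ A := h2
    exact Subtype.ext (disjoint_def.1 h c c.2 h3)
  exact LinearMap.rank_le_of_injective _ this

theorem quot_anti {X Y : Submodule F V} (h : X ≤ Y) :
    Module.rank F (V ⧸ Y) ≤ Module.rank F (V ⧸ X) :=
  LinearMap.rank_le_of_surjective (Submodule.factor h) (Submodule.factor_surjective h)

theorem near_of (hκ : ℵ₀ ≤ Module.rank F V) {A X : Submodule F V}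
    (hA : Module.rank F A = Module.rank F V)
    (h : Module.rank F (V ⧸ (A ⊔ X)) = Module.rank F V) : Near A X := by
  obtain ⟨C, hC⟩ := Submodule.exists_isCompl (A ⊔ X)
  have hrC : Module.rank F C = Module.rank F V := by
    rw [← h]
    exact (LinearEquiv.rank_eq (quotientEquivOfIsCompl _ _ hC)).symm
  obtain ⟨C₁, C₂, hC₁, hC₂, hd, r1, r2⟩ := split C (hrC ▸ hκ)
  have hdis : Disjoint C₁ (A ⊔ X) := (hC.disjoint.symm).mono_left hC₁
  have hW2 : Disjoint C₂ ((A ⊔ X) ⊔ C₁) := by
    rw [disjoint_def]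
    intro x hx hx2
    obtain ⟨d, hd', c, hc, rfl⟩ := mem_sup.1 hx2
    have e1 : d ∈ C := by
      have := C.sub_mem (hC₂ hx) (hC₁ hc)
      simpa using this
    have e2 : d = 0 := disjoint_def.1 hC.disjoint d hd' e1
    subst e2
    rw [zero_add] at hx ⊢
    exact disjoint_def.1 hd c hc hx
  have hAW : A ≤ (A ⊔ X) ⊔ C₁ := le_sup_left.trans le_sup_left
  have hXW : X ≤ (A ⊔ X) ⊔ C₁ := le_sup_right.trans le_sup_left
  have hCW : C₁ ≤ (A ⊔ X) ⊔ C₁ := le_sup_right
  refine ⟨(A ⊔ X) ⊔ C₁, ⟨?_, ?_⟩, hAW, hXW, ?_, ?_⟩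
  · exact le_antisymm (Submodule.rank_le _) (hA ▸ Submodule.rank_mono hAW)
  · refine le_antisymm (rank_quotient_le _) ?_
    rw [← hrC, ← r2]
    exact emb _ _ hW2
  · refine le_antisymm ((rank_quotient_le _).trans (Submodule.rank_le _)) ?_
    rw [← hrC, ← r1]
    exact emb' _ _ _ hCW (hdis.mono_right le_sup_left)
  · refine le_antisymm ((rank_quotient_le _).trans (Submodule.rank_le _)) ?_
    rw [← hrC, ← r1]
    exact emb' _ _ _ hCW (hdis.mono_right le_sup_right)

theorem key (hκ : ℵ₀ ≤ Module.rank F V) {A B : Submodule F V} (hA : Large A) (hB : Large B) :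
    ∃ X ≤ A, Module.rank F X = Module.rank F V ∧
      Module.rank F (V ⧸ (X ⊔ B)) = Module.rank F V := by
  obtain ⟨E, hE⟩ := Submodule.exists_isCompl (A ⊓ B)
  have hsup : (A ⊓ B) ⊔ (E ⊓ A) = A := by
    rw [← sup_inf_assoc_of_le E (inf_le_left : A ⊓ B ≤ A), hE.sup_eq_top, top_inf_eq]
  have hdis : Disjoint (E ⊓ A) B := by
    rw [disjoint_def]
    intro x hx hxB
    exact disjoint_def.1 hE.disjoint x ⟨hx.2, hxB⟩ hx.1
  rcases lt_or_ge (Module.rank F (E ⊓ A : Submodule F V)) (Module.rank F V) with hlt | hge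
  · refine ⟨A, le_rfl, hA.1, ?_⟩
    obtain ⟨D, hD⟩ := Submodule.exists_isCompl (A ⊔ B)
    have hrD : Module.rank F D = Module.rank F (V ⧸ (A ⊔ B)) :=
      (LinearEquiv.rank_eq (quotientEquivOfIsCompl _ _ hD)).symm
    rw [← hrD]
    refine le_antisymm (Submodule.rank_le _) ?_
    by_contra hcon
    have hDlt : Module.rank F D < Module.rank F V := not_le.1 hcon
    have hsurj : Function.Surjective (B.mkQ.domRestrict ((E ⊓ A) ⊔ D : Submodule F V)) := by
      intro q
      obtain ⟨v, rfl⟩ := B.mkQ_surjective q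
      have hv : v ∈ (A ⊔ B) ⊔ D := by rw [hD.sup_eq_top]; trivial
      obtain ⟨ab, hab, d, hd, rfl⟩ := mem_sup.1 hv
      obtain ⟨a, ha, b, hb, rfl⟩ := mem_sup.1 hab
      rw [← hsup] at ha
      obtain ⟨i, hi, a₁, ha₁, rfl⟩ := mem_sup.1 ha
      refine ⟨⟨a₁ + d, add_mem (mem_sup_left ha₁) (mem_sup_right hd)⟩, ?_⟩
      change B.mkQ (a₁ + d) = B.mkQ (i + a₁ + b + d)
      rw [← sub_eq_zero, ← map_sub]
      apply (Quotient.mk_eq_zero B).2
      have : a₁ + d - (i + a₁ + b + d) = -(i + b) := by abel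
      rw [this]
      exact B.neg_mem (B.add_mem hi.2 hb)
    have h1 := LinearMap.rank_le_of_surjective _ hsurj
    have h2 := Submodule.rank_add_le_rank_add_rank (E ⊓ A) D
    have h3 : Module.rank F (E ⊓ A : Submodule F V) + Module.rank F D < Module.rank F V :=
      add_lt_of_lt hκ hlt hDlt
    rw [hB.2] at h1
    exact absurd (h1.trans h2) (not_le.2 h3)
  · have hr : Module.rank F (E ⊓ A : Submodule F V) = Module.rank F V :=
      le_antisymm (Submodule.rank_le _) hge
    obtain ⟨X, X', hX, hX', hd, r1, r2⟩ := split (E ⊓ A) (hr ▸ hκ)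
    refine ⟨X, hX.trans inf_le_right, r1.trans hr, ?_⟩
    refine le_antisymm (rank_quotient_le _) ?_
    rw [← hr, ← r2]
    apply emb
    rw [disjoint_def]
    intro x hx hx2
    obtain ⟨y, hy, b, hb, rfl⟩ := mem_sup.1 hx2
    have e1 : b ∈ E ⊓ A := by
      have := (E ⊓ A).sub_mem (hX' hx) (hX hy)
      simpa using this
    have e2 : b = 0 := disjoint_def.1 hdis b e1 hb
    subst e2
    rw [add_zero] at hx ⊢
    exact disjoint_def.1 hd y hy hx

end

theorem t_CHN : S_CHN := by
  intro F V _ _ _ hκ A B hA hB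
  obtain ⟨X, hXA, hX, hXB⟩ := key hκ hA hB
  refine ⟨X, ⟨hX, ?_⟩, near_of hκ hA.1 ?_, near_of hκ hX hXB⟩
  · refine le_antisymm (rank_quotient_le _) ?_
    have := quot_anti hXA
    rwa [hA.2] at this
  · rw [sup_eq_left.2 hXA]
    exact hA.2

end Pool.Agent.Q259.GLV
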